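import Mathlib
import Pool.Agent.U79.GY.FIN5

/-!
# All moments of the ranks in the family of all quadratic twists of a curve with one point of order two

`E : y² = x³ + a x² + b x` with integers `a`, `b` such that neither `b` nor `c = a² - 4 b` is a square (over `ℚ`
both `E` and the isogenous curve have exactly one point of order two), `E_D : y² = x³ + a D x² + b D² x` its
quadratic twist by `D`. The class consists of the squarefree integers `D` (of both signs) such that
`b c` is a square modulo every prime divisor of `D`. If `b c` is a square this is the set of ALL squarefree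
integers; this holds e.g. for `(a, b) = (δ, δ s²)`, `δ = 4 s² + t²` not a square (`c = δ t²`).

**Theorem.** Let `K = ℚ(√d : d ∈ S)` be any multiquadratic field (e.g. `K = ℚ`). For every `r` there is `C`
such that for all `X` the mean of `2 ^ (r · rank E_D(K))` over the members `D` of the class with `|D| ≤ X`
is at most `C`; so the proportion of the `D` with `rank E_D(K) ≥ R` is at most `C 2 ^ (-r R)`
for all `R` and all `X`. The same holds for the product over all `T ⊆ S` of `2 ^ rank · #Ш[2]` for the twists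
of `E` by `D ∏ T` over `ℚ`.

For curves with full rational `2`-torsion this is due to Heath-Brown, Swinnerton-Dyer and Kane
(`K = ℚ`); for curves with exactly one point of order two and `b c` not a square the mean of the order
of the `2`-Selmer group over ALL `D` is unbounded (Klagsbrun, Lemke Oliver), and the case that `b c` is a
square is left out in the theorems of Smith.

Projects GD, GX, GY of the team: helper115 (descent), helper488, helper356, helper2 (sieve,
equidistribution, Mertens), helper864 (bilinear sums), helper951 (linear algebra), helper56 (boxes),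
helper395 (sum over the boxes, degenerate labels), helper278, helper780, helper891 (counting),
helper464 (asymptotic analysis), helper796, helper141, helper454, helper263 (characters, densities),
helper255 (descent in the general class), helper796 (bound of the rank and of `Ш[2]`), helper79 (plan,
statements, assembly).
-/

set_option autoImplicit false

open scoped Classical

namespace Pool.Agent.Results.MP_157626_nt.AllTwistsOnePoint

open Pool.Agent.TH841.NF.D (rk Sha)

/-- the curve `y² = x³ + a D x² + b D² x` over `K`: the quadratic twist by `D` of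
`y² = x³ + a x² + b x` -/
def E (a b D : ℤ) (K : Type) [Field K] : WeierstrassCurve K :=
  ⟨0, ((a * D : ℤ) : K), 0, ((b * D ^ 2 : ℤ) : K), 0⟩

/-- the class of the integers `D` -/
def Class (a b D : ℤ) : Prop := Squarefree D ∧
  ∀ p : ℕ, p.Prime → (p : ℤ) ∣ D → IsSquare ((b * (a ^ 2 - 4 * b) : ℤ) : ZMod p)

/-- the members of the class of absolute value at most `X` -/
noncomputable def Fam (a b : ℤ) (X : ℕ) : Finset ℤ :=
  (Finset.Icc (-(X : ℤ)) X).filter fun D => Class a b D

/-- the elements of `Ш` killed by `2` -/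
def ShaTwo (W : WeierstrassCurve ℚ) : Type := {x : Sha W // 2 • x = 0}

/-- the product over `T ⊆ S` of `2 ^ rank · #Ш[2]` of the twist of `E` by `D ∏ T` -/
noncomputable def size (a b : ℤ) (S : Finset ℤ) (D : ℤ) : ℕ :=
  ∏ T ∈ S.powerset, 2 ^ rk (E a b (D * ∏ d ∈ T, d) ℚ) *
    Nat.card (ShaTwo (E a b (D * ∏ d ∈ T, d) ℚ))

section proof

open Pool.Agent.U79.GY Finset

theorem fam_eq (a b : ℤ) (X : ℕ) : Fam a b X = TX b (a ^ 2 - 4 * b) X := rfl

theorem size_eq (a b : ℤ) (S : Finset ℤ) (D : ℤ) :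
    (size a b S D : ℝ) = ∏ T ∈ S.powerset, (ms a b (D * ∏ q ∈ T, q) : ℝ) := by
  have h : size a b S D = ∏ T ∈ S.powerset, ms a b (D * ∏ q ∈ T, q) := rfl
  rw [h, Nat.cast_prod]

end proof

theorem result :
    (∀ s t : ℤ, ¬ IsSquare (4 * s ^ 2 + t ^ 2) → s ≠ 0 → t ≠ 0 →
      ¬ IsSquare ((4 * s ^ 2 + t ^ 2) * s ^ 2) ∧
      ¬ IsSquare ((4 * s ^ 2 + t ^ 2) ^ 2 - 4 * ((4 * s ^ 2 + t ^ 2) * s ^ 2)) ∧
      ∀ D : ℤ, Class (4 * s ^ 2 + t ^ 2) ((4 * s ^ 2 + t ^ 2) * s ^ 2) D ↔ Squarefree D) ∧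
    ∀ a b : ℤ, ¬ IsSquare b → ¬ IsSquare (a ^ 2 - 4 * b) →
      (IsSquare (b * (a ^ 2 - 4 * b)) → ∀ D : ℤ, Class a b D ↔ Squarefree D) ∧
      (∀ D : ℤ, D ≠ 0 → Finite (ShaTwo (E a b D ℚ))) ∧
      ∀ S : Finset ℤ, (∀ d ∈ S, d ≠ 0) → ∀ r : ℕ, ∃ C : ℝ, ∀ X : ℕ,
        ∑ D ∈ Fam a b X, (size a b S D : ℝ) ^ r ≤ C * ((Fam a b X).card : ℝ) ∧
        ∀ (K : Type) [Field K] [NumberField K] (ρ : ℤ → K), (∀ d ∈ S, ρ d ^ 2 = (d : K)) →
          IntermediateField.adjoin ℚ (ρ '' (S : Set ℤ)) = ⊤ →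
          ∑ D ∈ Fam a b X, (2 : ℝ) ^ (r * rk (E a b D K)) ≤ C * ((Fam a b X).card : ℝ) ∧
          ∀ R : ℕ, (((Fam a b X).filter fun D => R ≤ rk (E a b D K)).card : ℝ) ≤
            C * (1 / 2 : ℝ) ^ (r * R) * ((Fam a b X).card : ℝ) := by
  have key : ∀ a b : ℤ, IsSquare (b * (a ^ 2 - 4 * b)) → ∀ D : ℤ, Class a b D ↔ Squarefree D := by
    intro a b h D
    refine ⟨fun h => h.1, fun hD => ⟨hD, fun p _ _ => ?_⟩⟩
    obtain ⟨s, hs⟩ := h
    refine ⟨(s : ZMod p), ?_⟩
    rw [hs]
    push_cast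
    ring
  refine ⟨fun s t h hs ht => ?_, fun a b nb nc => ⟨key a b, fun D hD => ?_, fun S hS r => ?_⟩⟩
  · have e : (4 * s ^ 2 + t ^ 2) ^ 2 - 4 * ((4 * s ^ 2 + t ^ 2) * s ^ 2) =
        (4 * s ^ 2 + t ^ 2) * t ^ 2 := by ring
    have k1 : ∀ u : ℤ, u ≠ 0 → ¬ IsSquare ((4 * s ^ 2 + t ^ 2) * u ^ 2) := fun u hu h1 =>
      h (Pool.Agent.U79.TF.sq_cancel hu h1)
    refine ⟨k1 s hs, by rw [e]; exact k1 t ht, key _ _ ?_⟩
    rw [e]
    exact ⟨(4 * s ^ 2 + t ^ 2) * s * t, by ring⟩
  · have hb : b ≠ 0 := by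
      rintro rfl
      exact nb ⟨0, by norm_num⟩
    have hc : a ^ 2 - 4 * b ≠ 0 := by
      intro h
      exact nc ⟨0, by rw [h]; norm_num⟩
    exact (Pool.Agent.U79.GY.ms_le hb hc hD).1
  · have hb : b ≠ 0 := by
      rintro rfl
      exact nb ⟨0, by norm_num⟩
    have hc : a ^ 2 - 4 * b ≠ 0 := by
      intro h
      exact nc ⟨0, by rw [h]; norm_num⟩
    obtain ⟨C, hC0, hC⟩ := Pool.Agent.U79.GY.t_mom_ms nb nc hS r
    refine ⟨C, fun X => ?_⟩
    have h1 : ∑ D ∈ Fam a b X, (size a b S D : ℝ) ^ r ≤ C * ((Fam a b X).card : ℝ) := by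
      refine le_trans (le_of_eq ?_) (hC X)
      rw [fam_eq]
      exact Finset.sum_congr rfl fun D _ => by rw [size_eq]
    refine ⟨h1, fun K _ _ ρ hρ hK => ?_⟩
    have h2 : ∑ D ∈ Fam a b X, (2 : ℝ) ^ (r * rk (E a b D K)) ≤ C * ((Fam a b X).card : ℝ) := by
      refine (Finset.sum_le_sum fun D hD => ?_).trans h1
      have hD0 : D ≠ 0 := (Finset.mem_filter.1 hD).2.1.ne_zero
      rw [mul_comm, pow_mul]
      refine pow_le_pow_left₀ (by positivity) ?_ r
      rw [size_eq]
      exact Pool.Agent.U79.GY.rank_le_ms hb hc hS K ρ hρ hK hD0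
    refine ⟨h2, fun R => ?_⟩
    have h3 : (((Fam a b X).filter fun D => R ≤ rk (E a b D K)).card : ℝ) * 2 ^ (r * R) ≤
        ∑ D ∈ Fam a b X, (2 : ℝ) ^ (r * rk (E a b D K)) := by
      rw [← nsmul_eq_mul, ← Finset.sum_const]
      refine le_trans (Finset.sum_le_sum fun D hD => ?_)
        (Finset.sum_le_sum_of_subset_of_nonneg (Finset.filter_subset _ _)
          fun _ _ _ => by positivity)
      exact pow_le_pow_right₀ (by norm_num) (Nat.mul_le_mul_left _ (Finset.mem_filter.1 hD).2)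
    have h4 : (0 : ℝ) < 2 ^ (r * R) := by positivity
    have h5 := h3.trans h2
    rw [← le_div_iff₀ h4] at h5
    refine h5.trans (le_of_eq ?_)
    rw [one_div, inv_pow]
    field_simp

end Pool.Agent.Results.MP_157626_nt.AllTwistsOnePoint
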