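import Mathlib
import Pool.Agent.U563.MM.AvgInt
import Pool.Agent.U563.MM.Mq

/-!
# All moments of the rank over the fields generated by square roots of linear polynomials

Let `E : y² = x (x - a) (x - b)` be an elliptic curve over `ℚ` with full rational 2-torsion, let
`c j` be nonzero integers and `L i (t) = γ i * t + δ i` pairwise non-proportional linear polynomials.
For an integer `t` let `K t = ℚ(√(c j), √(L i (t)))`, a field of degree up to `2 ^ (r + m)` that
varies with `t`. For every `k` the average over `|t| ≤ X` of `2 ^ (k * rank E (K t))` is bounded. So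
the number of the `t` with `|t| ≤ X` and `rank E (K t) ≥ R` is at most `C_k * X / 2 ^ (k * R)`, for all
`k` and `R`. Since the twist of `E` by a product of some of the `L i (t)` embeds into `E (K t)`, all
the moments of `2 ^ rank` are bounded in the families of the quadratic twists of `E` by the values of
a product of distinct linear polynomials.

Proof. The rank over `K t` is at most the sum of the ranks over `ℚ` of the twists by the products of
the `c j` and `L i (t)`. For the twists by `D(t)`, a product of linear polynomials: the `k`-th power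
of the local 2-descent count over the small primes dividing `D(t)` is expanded into Jacobi symbols
with indices in pairs of vectors of `F_2 ^ (2 k)`; the unlinked sets of indices are isotropic, so have
at most `4 ^ k` elements; the bound for sums of Jacobi symbols and the sieve are those of the starting
files (project RK, `MP_157626_nt.BoundedAverage`, the case `k = 1`), adapted to every `k`.
-/

set_option autoImplicit false

namespace Pool.Agent.Results.MP_157626_nt.MultiquadraticMoments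

open Finset

/-- the curve `y² = x (x - a) (x - b)` over the field `F` -/
def E (F : Type) [Field F] (a b : ℤ) : WeierstrassCurve F := ⟨0, -((a : F) + b), 0, (a : F) * b, 0⟩

open Classical in
/-- the rank of the group of the points over `F` of `y² = x (x - a) (x - b)` -/
noncomputable def rank (F : Type) [Field F] (a b : ℤ) : ℕ :=
  Module.finrank ℤ (E F a b).toAffine.Point

/-- the subfield of `ℂ` generated by the square roots of the `c j` and of the `γ i * t + δ i` -/
noncomputable def K {r m : ℕ} (c : Fin r → ℤ) (γ δ : Fin m → ℤ) (t : ℤ) : IntermediateField ℚ ℂ :=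
  IntermediateField.adjoin ℚ
    {z : ℂ | (∃ j, z ^ 2 = (c j : ℂ)) ∨ ∃ i, z ^ 2 = ((γ i * t + δ i : ℤ) : ℂ)}

section

open Pool.Agent.U563.MM
open Pool.Agent.W262.RK (EAB)

lemma E_eq (F : Type) [Field F] (a b c : ℤ) :
    E F (a * c) (b * c) = Pool.Agent.Y682.gc (-(a + b) * c) (a * b * c ^ 2) F := by
  unfold E Pool.Agent.Y682.gc
  congr 1
  · push_cast
    ring
  · push_cast
    ring

lemma rank_eq (F : Type) [Field F] [NumberField F] (a b c : ℤ) :
    rank F (a * c) (b * c) = RT (-(a + b)) (a * b) F c := by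
  unfold rank RT Pool.Agent.TH841.NF.D.rk
  rw [← E_eq F a b c]

/-- the rank with a given decision procedure of the equality -/
noncomputable def rkd (W : WeierstrassCurve ℚ) (d : DecidableEq ℚ) : ℕ :=
  letI := d
  Module.finrank ℤ W.toAffine.Point

lemma rank_rat (a b c : ℤ) :
    rank ℚ (a * c) (b * c) = Module.finrank ℤ (EAB (a * c) (b * c)).toAffine.Point := by
  have h1 : rank ℚ (a * c) (b * c) = rkd (EAB (a * c) (b * c)) (Classical.decEq ℚ) := rfl
  have h2 : rkd (EAB (a * c) (b * c)) inferInstance =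
    Module.finrank ℤ (EAB (a * c) (b * c)).toAffine.Point := rfl
  rw [h1, ← h2]
  exact congrArg _ (Subsingleton.elim _ _)

/-- a product of powers is at most the sum of large powers -/
lemma pow_sum_le {ι : Type} (S : Finset ι) (hS : S.Nonempty) (f : ι → ℕ) (k : ℕ) :
    (2 : ℝ) ^ (k * ∑ i ∈ S, f i) ≤ ∑ i ∈ S, ((2 : ℝ) ^ f i) ^ (k * S.card) := by
  obtain ⟨i0, hi0, hmax⟩ := S.exists_max_image f hS
  have h1 : ∑ i ∈ S, f i ≤ S.card * f i0 := by
    rw [← smul_eq_mul]
    exact sum_le_card_nsmul S f (f i0) hmax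
  calc (2 : ℝ) ^ (k * ∑ i ∈ S, f i) ≤ (2 : ℝ) ^ (k * (S.card * f i0)) :=
        pow_le_pow_right₀ (by norm_num) (Nat.mul_le_mul_left k h1)
    _ = ((2 : ℝ) ^ f i0) ^ (k * S.card) := by
        rw [← pow_mul]
        congr 1
        ring
    _ ≤ _ := single_le_sum (f := fun i => ((2 : ℝ) ^ f i) ^ (k * S.card))
        (fun i _ => by positivity) hi0

end

open Pool.Agent.U563.MM in
open Pool.Agent.W262.RK (EAB) in
/-- **All moments of the rank of `E` over `ℚ(√(c j), √(γ i * t + δ i))` are bounded on average.** -/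
theorem result (r m k : ℕ) (a b : ℤ) (ha : a ≠ 0) (hb : b ≠ 0) (hab : a ≠ b)
    (c : Fin r → ℤ) (hc : ∀ j, c j ≠ 0) (γ δ : Fin m → ℤ) (hγ : ∀ i, γ i ≠ 0)
    (h : ∀ i j, i ≠ j → γ i * δ j ≠ γ j * δ i) :
    ∃ C : ℝ, ∀ X : ℕ, 1 ≤ X →
      ∑ t ∈ Icc (-(X : ℤ)) X, (2 : ℝ) ^ (k * rank (K c γ δ t) a b) ≤ C * X := by
  classical
  set w : ℤ → Fin r ⊕ Fin m → ℤ := fun t => Sum.elim c (fun i => γ i * t + δ i) with hw
  set N : ℕ := (univ : Finset (Fin r ⊕ Fin m)).powerset.card with hN
  have hN1 : 1 ≤ N := by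
    rw [hN]
    exact card_pos.2 ⟨∅, empty_mem_powerset _⟩
  -- the field
  have hK : ∀ t, K c γ δ t = mqf (univ.image (w t)) := by
    intro t
    unfold K mqf
    congr 1
    ext z
    simp only [Set.mem_setOf_eq, mem_image, mem_univ, true_and, exists_exists_eq_and, hw]
    constructor
    · rintro (⟨j, hj⟩ | ⟨i, hi⟩)
      · exact ⟨Sum.inl j, hj⟩
      · exact ⟨Sum.inr i, hi⟩
    · rintro ⟨j | i, hz⟩
      · exact Or.inl ⟨j, hz⟩
      · exact Or.inr ⟨i, hz⟩
  -- the twists
  set Q : Finset (Fin r ⊕ Fin m) → ℤ → ℝ := fun T t =>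
    ((2 : ℝ) ^ Module.finrank ℤ (EAB (a * ∏ i ∈ T, w t i) (b * ∏ i ∈ T, w t i)).toAffine.Point) ^
      ((k + 1) * N) with hQ
  have hQ0 : ∀ T t, 0 ≤ Q T t := fun T t => by positivity
  have hQb : ∀ T : Finset (Fin r ⊕ Fin m), ∃ C : ℝ, ∀ X : ℕ, 1 ≤ X →
      ∑ t ∈ Icc (-(X : ℤ)) X, Q T t ≤ C * X := by
    intro T
    set J : Type := {i : Fin m // Sum.inr i ∈ T} with hJ
    set c0 : ℤ := ∏ j ∈ univ.filter (fun j : Fin r => Sum.inl j ∈ T), c j with hc0
    have hc00 : c0 ≠ 0 := prod_ne_zero_iff.2 fun j _ => hc j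
    obtain ⟨C, _, hC⟩ := avg_int (J := J) ((k + 1) * N)
      (Nat.mul_pos (Nat.succ_pos k) hN1) a b c0 ha hb hab hc00 (fun i => γ i.1) (fun i => δ i.1)
      (fun i => hγ i.1) (fun i j hij => h i.1 j.1 (fun h1 => hij (Subtype.ext h1)))
    refine ⟨C, fun X hX => le_trans (le_of_eq (sum_congr rfl fun t _ => ?_)) (hC X hX)⟩
    have hprod : ∏ i ∈ T, w t i = c0 * ∏ i : J, (γ i.1 * t + δ i.1) := by
      have e1 : ∏ i ∈ T, w t i = ∏ i : Fin r ⊕ Fin m, if i ∈ T then w t i else 1 := by
        rw [prod_ite_mem, univ_inter]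
      rw [e1, Fintype.prod_sum_type]
      congr 1
      · rw [hc0, prod_filter]
        rfl
      · rw [← prod_filter]
        exact (prod_subtype (univ.filter fun i : Fin m => Sum.inr i ∈ T) (fun i => by simp)
          (fun i => γ i * t + δ i))
    rw [hQ]
    simp only
    rw [hprod]
    rfl
  choose CT hCT using hQb
  -- the zeros of the linear polynomials
  set P : ℤ → ℝ := fun t => (2 : ℝ) ^ (k * rank (K c γ δ t) a b) with hP
  have hP0 : ∀ t, 0 ≤ P t := fun t => by positivity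
  set T0 : ℕ := ∑ i, (δ i).natAbs with hT0
  have hzero : ∀ t : ℤ, (∃ i, γ i * t + δ i = 0) → t ∈ Icc (-(T0 : ℤ)) T0 := by
    rintro t ⟨i, hi⟩
    have h1 : (δ i).natAbs = (γ i).natAbs * t.natAbs := by
      have h2 : δ i = -(γ i * t) := by linarith
      rw [h2, Int.natAbs_neg, Int.natAbs_mul]
    have h3 := single_le_sum (f := fun i => (δ i).natAbs) (fun _ _ => Nat.zero_le _) (mem_univ i)
    have h4 : t.natAbs ≤ (γ i).natAbs * t.natAbs :=
      Nat.le_mul_of_pos_left _ (Int.natAbs_pos.2 (hγ i))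
    have h5 : t.natAbs ≤ T0 := h4.trans (h1 ▸ h3)
    rw [mem_Icc]
    omega
  -- the pointwise bound
  have hpt : ∀ t, (∀ i, γ i * t + δ i ≠ 0) →
      P t ≤ ∑ T ∈ (univ : Finset (Fin r ⊕ Fin m)).powerset, Q T t := by
    intro t ht
    have hwt : ∀ i, w t i ≠ 0 := by
      rintro (j | i)
      · exact hc j
      · exact ht i
    have hB : a * b ≠ 0 := mul_ne_zero ha hb
    have hD : (-(a + b)) ^ 2 - 4 * (a * b) ≠ 0 := by
      have : (-(a + b)) ^ 2 - 4 * (a * b) = (a - b) ^ 2 := by ring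
      rw [this]
      exact pow_ne_zero 2 (sub_ne_zero.2 hab)
    have hnf : NumberField (K c γ δ t) := by
      rw [hK t]
      exact nf _
    have h1 := rank_le hB hD (w t) hwt univ (K c γ δ t) (hK t) 1 one_ne_zero
    rw [← rank_eq (K c γ δ t) a b 1, mul_one, mul_one] at h1
    have h2 : rank (K c γ δ t) a b ≤ ∑ T ∈ (univ : Finset (Fin r ⊕ Fin m)).powerset,
        Module.finrank ℤ (EAB (a * ∏ i ∈ T, w t i) (b * ∏ i ∈ T, w t i)).toAffine.Point := by
      refine h1.trans (le_of_eq (sum_congr rfl fun T _ => ?_))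
      rw [one_mul, ← rank_eq ℚ a b, rank_rat]
    calc P t ≤ (2 : ℝ) ^ ((k + 1) * ∑ T ∈ (univ : Finset (Fin r ⊕ Fin m)).powerset,
          Module.finrank ℤ (EAB (a * ∏ i ∈ T, w t i) (b * ∏ i ∈ T, w t i)).toAffine.Point) :=
          pow_le_pow_right₀ (by norm_num) (Nat.mul_le_mul (Nat.le_succ k) h2)
      _ ≤ _ := pow_sum_le _ ⟨∅, empty_mem_powerset _⟩ _ _
  refine ⟨∑ t ∈ Icc (-(T0 : ℤ)) T0, P t +
    ∑ T ∈ (univ : Finset (Fin r ⊕ Fin m)).powerset, CT T, fun X hX => ?_⟩
  have hXr : (1 : ℝ) ≤ X := by exact_mod_cast hX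
  have hbad : ∀ t ∈ Icc (-(X : ℤ)) X, P t ≤ (if t ∈ Icc (-(T0 : ℤ)) T0 then P t else 0) +
      ∑ T ∈ (univ : Finset (Fin r ⊕ Fin m)).powerset, Q T t := by
    intro t _
    have h0 : 0 ≤ ∑ T ∈ (univ : Finset (Fin r ⊕ Fin m)).powerset, Q T t :=
      sum_nonneg fun T _ => hQ0 T t
    by_cases ht : t ∈ Icc (-(T0 : ℤ)) T0
    · rw [if_pos ht]
      linarith
    · rw [if_neg ht, zero_add]
      exact hpt t fun i hi => ht (hzero t ⟨i, hi⟩)
  calc ∑ t ∈ Icc (-(X : ℤ)) X, P t
      ≤ ∑ t ∈ Icc (-(X : ℤ)) X, ((if t ∈ Icc (-(T0 : ℤ)) T0 then P t else 0) +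
        ∑ T ∈ (univ : Finset (Fin r ⊕ Fin m)).powerset, Q T t) := sum_le_sum hbad
    _ = ∑ t ∈ Icc (-(X : ℤ)) X, (if t ∈ Icc (-(T0 : ℤ)) T0 then P t else 0) +
        ∑ T ∈ (univ : Finset (Fin r ⊕ Fin m)).powerset, ∑ t ∈ Icc (-(X : ℤ)) X, Q T t := by
        rw [sum_add_distrib, sum_comm]
    _ ≤ ∑ t ∈ Icc (-(T0 : ℤ)) T0, P t +
        ∑ T ∈ (univ : Finset (Fin r ⊕ Fin m)).powerset, CT T * X := by
        refine add_le_add ?_ (sum_le_sum fun T _ => hCT T X hX)
        rw [← sum_filter]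
        refine sum_le_sum_of_subset_of_nonneg ?_ (fun t _ _ => hP0 t)
        intro t ht
        exact (mem_filter.1 ht).2
    _ ≤ _ := by
        rw [← sum_mul, add_mul]
        have h6 : 0 ≤ ∑ t ∈ Icc (-(T0 : ℤ)) T0, P t := sum_nonneg fun t _ => hP0 t
        have h7 := le_mul_of_one_le_right h6 hXr
        linarith

end Pool.Agent.Results.MP_157626_nt.MultiquadraticMoments
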