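import Pool.Agent.U120.BR.Mn
import Pool.Agent.U115.GE.Ex

/-!
# Multiplicative families of quadratic twists with bounded rank and bounded `Ш[2]`

`a`, `b` are integers, `b` and `c = a² - 4 b` are not squares, `E_D : y² = x³ + a D x² + b D² x` is the
quadratic twist by `D` of `E = E_1`, a curve with a rational point of order two. A prime is SPLIT if it is
`1 mod 8` and a nonzero square modulo the odd primes dividing `b c`. `T` is ANY set of split primes, `D_U` the
product of the elements of a finite subset `U` of `T`, `M(D) = 2 ^ rank(E_D(ℚ)) · #Ш(E_D/ℚ)[2]`.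

* BOUNDED FAMILIES. The following are equivalent: `M(D_U)` is bounded; `#Sel(E_{D_U})` is bounded; for some
  `m` no `U` with at most `3 m` elements has `M(D_U) ≥ 2 ^ m`; for some `m` no `U` with at most `3 m`
  elements has `#Sel(E_{D_U}) ≥ 2 ^ m · #Sel(E)`; `T` is tame: there is a finite `F ⊆ T` such that `T \ F` is
  a matching whose elements are squares modulo the elements of `F`. A matching is a set such that no root of
  `x² + a x + b` modulo an element is a square, and every element is a modulus for which at most one element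
  is a nonsquare.
* So the family is bounded, or its members grow at least linearly in the number of the prime factors, and the
  rate `1/3` is attained: for every `E` there is a `T` with `#Sel(E_{D_U}) ≤ 2 ^ ⌊#U / 3⌋ · #Sel(E)` for all
  `U`, with equality for some `U` with `3 m` elements, for all `m`.
* In a tame family the two Selmer groups of `E_{D_U}` have the sizes of those of `E_{D_{U ∩ F}}`, and
  `rank(E_{D_U}(ℚ)) ≤ 2 #F + s(E)`; over the number fields `K` in `ℚ(√p : p ∈ T)`: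
  `rank(E(K)) ≤ [K : ℚ] (2 #F + s(E))`.
* CONSTANT FAMILIES. `#Sel(E_{D_U}) = #Sel(E)` for all `U` if and only if this holds for the `U` with at most
  three elements, if and only if `T` is a matching; if `#Sel(E) · #Sel'(E) = 4`: the same for finitely many
  rational points and `Ш[2^∞] = 0`, and then `E(K)` is finite and `[K : ℚ]` kills `Ш(E/K)[2^∞]` for the
  number fields `K` in `ℚ(√p : p ∈ T)`.
* EXISTENCE. The split primes `p` such that no root of `x² + a x + b` modulo `p` is a square have positive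
  upper density in the primes; any set `S` of split primes whose elements with this property have positive
  upper density contains an infinite matching.

The descent for one twist (`κ = #` kernel of a matrix, `#Sel(E_D) = κ #Sel(E)`, `κ ≤ M(D) ≤ κ² #Sel #Sel' / 4`)
is that of helper115's project GE (`U115/GE`), the passage to the fields is `U747/GE` and `U80/MQ`. New here
(`U120/BR`): the structure theorem, the joint law of the symbols and labels of the split primes for every `E`.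
-/

set_option autoImplicit false

open scoped Classical

open WeierstrassCurve NumberField Filter Topology

namespace Pool.Agent.Results.MP_157626_nt.TwistFamilies

open Pool.Agent.TH841.NF.D (Sha rk)

/-- the curve `y² = x³ + a D x² + b D² x` over `K` -/
def curve (a b : ℤ) (D : ℕ) (K : Type) [Field K] : WeierstrassCurve K :=
  ⟨0, (a : K) * (D : K), 0, (b : K) * (D : K) ^ 2, 0⟩

/-- `N² = d M⁴ + A M² e² + (B / d) e⁴` has a solution with `(M, e) ≠ (0, 0)` in `K` -/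
def Quartic (K : Type) [Field K] (A B d : ℤ) : Prop :=
  ∃ N M e : K, (M ≠ 0 ∨ e ≠ 0) ∧
    N ^ 2 = (d : K) * M ^ 4 + (A : K) * M ^ 2 * e ^ 2 + (B : K) / (d : K) * e ^ 4

/-- the squarefree `d` with locally soluble quartics -/
def Selmer (A B : ℤ) : Set ℤ :=
  {d | Squarefree d ∧ Quartic ℝ A B d ∧ ∀ (p : ℕ) [Fact p.Prime], Quartic ℚ_[p] A B d}

/-- `Sel(E_D)` -/
def Sel (a b : ℤ) (D : ℕ) : Set ℤ := Selmer (a * (D : ℤ)) (b * (D : ℤ) ^ 2)

/-- `Sel'(E_D)` -/
def Sel' (a b : ℤ) (D : ℕ) : Set ℤ :=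
  Selmer (-2 * (a * (D : ℤ))) ((a * (D : ℤ)) ^ 2 - 4 * (b * (D : ℤ) ^ 2))

/-- `#Sel(E_D)` -/
noncomputable def sel (a b : ℤ) (D : ℕ) : ℕ := (Sel a b D).ncard

/-- `#Sel'(E_D)` -/
noncomputable def sel' (a b : ℤ) (D : ℕ) : ℕ := (Sel' a b D).ncard

/-- `s(E)`: the exponent of `#Sel(E) · #Sel'(E) / 4` -/
noncomputable def s (a b : ℤ) : ℕ := Nat.log 2 (sel a b 1 * sel' a b 1) - 2

/-- `M(D) = 2 ^ rank(E_D(ℚ)) · #Ш(E_D/ℚ)[2]` -/
noncomputable def M (a b : ℤ) (D : ℕ) : ℕ :=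
  2 ^ rk (curve a b D ℚ) * Nat.card {x : Sha (curve a b D ℚ) // 2 • x = 0}

/-- split primes -/
def Split (a b : ℤ) (p : ℕ) : Prop := p.Prime ∧ p % 8 = 1 ∧
  ∀ l : ℕ, l.Prime → l ≠ 2 → (l : ℤ) ∣ b * (a ^ 2 - 4 * b) → ¬ l ∣ p ∧ IsSquare (p : ZMod l)

/-- no root of `x² + a x + b` modulo `p` is a square -/
def Theta (a b : ℤ) (p : ℕ) : Prop :=
  ∀ x : ZMod p, x ^ 2 + (a : ZMod p) * x + (b : ZMod p) = 0 → ¬ IsSquare x

/-- matchings -/
def Matching (a b : ℤ) (T : Set ℕ) : Prop := (∀ p ∈ T, Theta a b p) ∧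
  ∀ p ∈ T, ∀ q ∈ T, ∀ r ∈ T, ¬ IsSquare (q : ZMod p) → ¬ IsSquare (r : ZMod p) → q = r

/-- `F ⊆ T` is finite, `T \ F` is a matching, its elements are squares modulo the elements of `F` -/
def Tame (a b : ℤ) (T : Set ℕ) (F : Finset ℕ) : Prop := (F : Set ℕ) ⊆ T ∧ Matching a b (T \ F) ∧
  ∀ p ∈ F, ∀ q ∈ T \ (F : Set ℕ), IsSquare (q : ZMod p)

/-- the product of the elements -/
def prodOf (U : Finset ℕ) : ℕ := ∏ p ∈ U, p

/-- `E_D(ℚ)` is finite and `Ш(E_D/ℚ)` has no elements of even order -/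
def TrivialTwo (a b : ℤ) (D : ℕ) : Prop := Finite (curve a b D ℚ).toAffine.Point ∧
  ∀ (k : ℕ) (x : Sha (curve a b D ℚ)), 2 ^ k • x = 0 → x = 0

/-- the field generated by the square roots of the elements of `T` -/
noncomputable def Roots (T : Set ℕ) : IntermediateField ℚ ℂ :=
  IntermediateField.adjoin ℚ {z : ℂ | ∃ q ∈ T, z ^ 2 = (q : ℂ)}

/-- positive upper density in the primes -/
def PositiveUpper (A : Set ℕ) : Prop := ∃ δ : ℝ, 0 < δ ∧ ∀ X₀ : ℕ, ∃ X : ℕ, X₀ ≤ X ∧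
  δ * (Nat.primeCounting X : ℝ) ≤ (((Finset.Icc 1 X).filter fun p => p ∈ A).card : ℝ)

section proof

open Pool.Agent.U120.BR
open Pool.Agent.Y698.SG (nq nq_zero)

variable {a b : ℤ}

lemma nq_one {p q : ℕ} : nq p q = 1 ↔ ¬ IsSquare (q : ZMod p) := by
  rw [← nq_zero]
  rcases z2 (nq p q) with h | h <;> rw [h] <;> decide

lemma rt_iff {p : ℕ} : Pool.Agent.U115.GE.RtG a b p 1 ↔ Theta a b p := by
  unfold Pool.Agent.U115.GE.RtG Theta
  simp only [Nat.cast_one, mul_one, one_pow]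

lemma th_one {p : ℕ} : th a b 1 p = 1 ↔ Theta a b p := by
  rw [← rt_iff]
  unfold th
  by_cases h : Pool.Agent.U115.GE.RtG a b p 1
  · rw [if_pos h]
    exact ⟨fun _ => h, fun _ => rfl⟩
  · rw [if_neg h]
    exact ⟨fun h1 => absurd h1 zero_ne_one, fun h1 => absurd h1 h⟩

theorem ma_iff {T : Set ℕ} : Ma nq (th a b 1) T ↔ Matching a b T := by
  unfold Ma Matching
  simp only [th_one, nq_one]

theorem fm_iff {T : Set ℕ} {F : Finset ℕ} : Fm nq (th a b 1) T F ↔ Tame a b T F := by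
  unfold Fm Tame
  rw [ma_iff]
  simp only [nq_zero]

lemma sel_one : sel a b 1 = Pool.Agent.U115.GE.sel a b := by
  have e : sel a b 1 = Pool.Agent.U115.GE.sel (a * ((1 : ℕ) : ℤ)) (b * ((1 : ℕ) : ℤ) ^ 2) := rfl
  rw [e, Nat.cast_one, mul_one, one_pow, mul_one]

lemma sel_one' : sel' a b 1 = Pool.Agent.U115.GE.sel (-2 * a) (a ^ 2 - 4 * b) := by
  have e : sel' a b 1 = Pool.Agent.U115.GE.sel (-2 * (a * ((1 : ℕ) : ℤ)))
    ((a * ((1 : ℕ) : ℤ)) ^ 2 - 4 * (b * ((1 : ℕ) : ℤ) ^ 2)) := rfl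
  rw [e, Nat.cast_one, mul_one, one_pow, mul_one]

lemma ss_eq : s a b = ss a b := by
  unfold s ss
  rw [sel_one, sel_one']

lemma curve_one (K : Type) [Field K] : curve a b 1 K = Pool.Agent.Y682.wc (a : K) (b : K) := by
  have e : curve a b 1 K = Pool.Agent.Y682.wc ((a : K) * ((1 : ℕ) : K)) ((b : K) * ((1 : ℕ) : K) ^ 2) :=
    rfl
  rw [e, wc_one]

theorem part_fields {T : Set ℕ} (hb : b ≠ 0) (hc : a ^ 2 - 4 * b ≠ 0) (nb : ¬ IsSquare b)
    (nc : ¬ IsSquare (a ^ 2 - 4 * b)) (hT : ∀ p ∈ T, Split a b p) {F : Finset ℕ}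
    (hF : Tame a b T F) (K : IntermediateField ℚ ℂ) (hK : K ≤ Roots T) (hfd : FiniteDimensional ℚ K) :
    rk (curve a b 1 K) ≤ Module.finrank ℚ K * (2 * F.card + s a b) := by
  have hN : NumberField K := { to_charZero := inferInstance, to_finiteDimensional := hfd }
  rw [curve_one, ss_eq]
  exact fld_rank hb hc (fun q hq => (hT q hq).1)
    (fun V hV => (main_values hb hc nb nc hT (fm_iff.2 hF) hV).2.2) K hK

theorem part_killed {T : Set ℕ} (hb : b ≠ 0) (hc : a ^ 2 - 4 * b ≠ 0) (nb : ¬ IsSquare b)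
    (nc : ¬ IsSquare (a ^ 2 - 4 * b)) (hT : ∀ p ∈ T, Split a b p)
    (h4 : sel a b 1 * sel' a b 1 = 4) (hM : Matching a b T)
    (K : IntermediateField ℚ ℂ) (hK : K ≤ Roots T) (hfd : FiniteDimensional ℚ K) :
    ∃ _ : NumberField K, Finite (curve a b 1 K).toAffine.Point ∧
      ∀ (k : ℕ) (x : Sha (curve a b 1 K)), 2 ^ k • x = 0 → Module.finrank ℚ K • x = 0 := by
  have hN : NumberField K := { to_charZero := inferInstance, to_finiteDimensional := hfd }
  rw [sel_one, sel_one'] at h4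
  refine ⟨hN, ?_⟩
  rw [curve_one]
  refine fld_tt hb hc (fun q hq => (hT q hq).1) (fun V hV => ?_) K hK
  have h := (main_trivial hb hc nb nc hT h4).1.2 (ma_iff.2 hM) V hV
  exact ⟨h.1, fun x hx => h.2 1 x (by rw [pow_one]; exact hx)⟩

theorem example_one : ¬ IsSquare (128 : ℤ) ∧ ¬ IsSquare (13 ^ 2 - 4 * 128 : ℤ) ∧
    sel 13 128 1 * sel' 13 128 1 = 4 := by
  refine ⟨?_, ?_, ?_⟩
  · rintro ⟨x, hx⟩
    have h1 : x.natAbs * x.natAbs = 128 := by
      have h := congrArg Int.natAbs hx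
      rw [Int.natAbs_mul] at h
      exact h.symm
    have h2 : x.natAbs < 12 := by nlinarith
    interval_cases x.natAbs <;> omega
  · rintro ⟨x, hx⟩
    nlinarith [mul_self_nonneg x]
  · rw [sel_one, sel_one', Pool.Agent.U115.GE.sel_X14.1, Pool.Agent.U115.GE.sel_X14.2]

end proof

/-- **Theorem.** -/
theorem result :
    (∀ a b : ℤ, ¬ IsSquare b → ¬ IsSquare (a ^ 2 - 4 * b) →
      (∀ T : Set ℕ, (∀ p ∈ T, Split a b p) →
        -- bounded families
        (∀ U : Finset ℕ, (U : Set ℕ) ⊆ T → Finite {x : Sha (curve a b (prodOf U) ℚ) // 2 • x = 0} ∧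
          (Sel a b (prodOf U)).Finite ∧ (Sel' a b (prodOf U)).Finite) ∧
        List.TFAE [
          ∃ C : ℕ, ∀ U : Finset ℕ, (U : Set ℕ) ⊆ T → M a b (prodOf U) ≤ C,
          ∃ C : ℕ, ∀ U : Finset ℕ, (U : Set ℕ) ⊆ T → sel a b (prodOf U) ≤ C,
          ∃ m : ℕ, ∀ U : Finset ℕ, (U : Set ℕ) ⊆ T → U.card ≤ 3 * m → M a b (prodOf U) < 2 ^ m,
          ∃ m : ℕ, ∀ U : Finset ℕ, (U : Set ℕ) ⊆ T → U.card ≤ 3 * m →
            sel a b (prodOf U) < 2 ^ m * sel a b 1,
          ∃ F : Finset ℕ, Tame a b T F] ∧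
        -- the values of a bounded family, and the number fields
        (∀ F : Finset ℕ, Tame a b T F →
          (∀ U : Finset ℕ, (U : Set ℕ) ⊆ T → sel a b (prodOf U) = sel a b (prodOf (U ∩ F)) ∧
            sel' a b (prodOf U) = sel' a b (prodOf (U ∩ F)) ∧
            rk (curve a b (prodOf U) ℚ) ≤ 2 * F.card + s a b) ∧
          ∀ K : IntermediateField ℚ ℂ, K ≤ Roots T → FiniteDimensional ℚ K →
            rk (curve a b 1 K) ≤ Module.finrank ℚ K * (2 * F.card + s a b)) ∧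
        -- constant families
        ((∀ U : Finset ℕ, (U : Set ℕ) ⊆ T → sel a b (prodOf U) = sel a b 1) ↔ Matching a b T) ∧
        ((∀ U : Finset ℕ, (U : Set ℕ) ⊆ T → U.card ≤ 3 → sel a b (prodOf U) = sel a b 1) ↔
          Matching a b T) ∧
        (sel a b 1 * sel' a b 1 = 4 →
          ((∀ U : Finset ℕ, (U : Set ℕ) ⊆ T → TrivialTwo a b (prodOf U)) ↔ Matching a b T) ∧
          ((∀ U : Finset ℕ, (U : Set ℕ) ⊆ T → U.card ≤ 3 → TrivialTwo a b (prodOf U)) ↔
            Matching a b T) ∧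
          (Matching a b T → ∀ K : IntermediateField ℚ ℂ, K ≤ Roots T → FiniteDimensional ℚ K →
            ∃ _ : NumberField K, Finite (curve a b 1 K).toAffine.Point ∧
              ∀ (k : ℕ) (x : Sha (curve a b 1 K)), 2 ^ k • x = 0 → Module.finrank ℚ K • x = 0))) ∧
      -- the rate is attained
      (∃ T : Set ℕ, (∀ p ∈ T, Split a b p ∧ Theta a b p) ∧
        (∀ U : Finset ℕ, (U : Set ℕ) ⊆ T → sel a b (prodOf U) ≤ 2 ^ (U.card / 3) * sel a b 1) ∧
        ∀ m : ℕ, ∃ U : Finset ℕ, (U : Set ℕ) ⊆ T ∧ U.card = 3 * m ∧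
          sel a b (prodOf U) = 2 ^ m * sel a b 1) ∧
      -- dense sets
      PositiveUpper {p | Split a b p ∧ Theta a b p} ∧
      (∀ S : Set ℕ, (∀ p ∈ S, Split a b p) → PositiveUpper {p | p ∈ S ∧ Theta a b p} →
        ∃ T ⊆ S, T.Infinite ∧ Matching a b T)) ∧
    -- the example `X_0(14)`
    ¬ IsSquare (128 : ℤ) ∧ ¬ IsSquare (13 ^ 2 - 4 * 128 : ℤ) ∧ sel 13 128 1 * sel' 13 128 1 = 4 := by
  refine ⟨fun a b nb nc => ?_, example_one⟩
  have hb : b ≠ 0 := by
    rintro rfl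
    exact nb ⟨0, by norm_num⟩
  have hc : a ^ 2 - 4 * b ≠ 0 := by
    intro h
    exact nc (by rw [h]; exact ⟨0, by norm_num⟩)
  refine ⟨fun T hT => ⟨fun U hU => ?_, ?_, fun F hF => ⟨fun U hU => ?_, fun K hK hfd => ?_⟩, ?_, ?_,
    fun h4 => ⟨?_, ?_, fun hM K hK hfd => ?_⟩⟩, ?_, ?_, fun S hS h => ?_⟩
  · have hP : ∀ p ∈ U, Split a b p := fun p hp => hT p (hU (Finset.mem_coe.2 hp))
    have hD : ((prodOf U : ℕ) : ℤ) ≠ 0 := by
      exact_mod_cast Finset.prod_ne_zero_iff.2 fun p hp => (hP p hp).1.ne_zero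
    refine ⟨(Pool.Agent.U120.BR.rs1 hb hc nb nc hP).1,
      Pool.Agent.U796.GE.selSet_finite (mul_ne_zero hb (pow_ne_zero 2 hD)),
      Pool.Agent.U796.GE.selSet_finite ?_⟩
    have e : (a * ((prodOf U : ℕ) : ℤ)) ^ 2 - 4 * (b * ((prodOf U : ℕ) : ℤ) ^ 2) =
        (a ^ 2 - 4 * b) * ((prodOf U : ℕ) : ℤ) ^ 2 := by ring
    rw [e]
    exact mul_ne_zero hc (pow_ne_zero 2 hD)
  · have h := Pool.Agent.U120.BR.main_tfae hb hc nb nc hT
    simp only [fm_iff] at h
    rw [sel_one]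
    exact h
  · rw [ss_eq]
    exact Pool.Agent.U120.BR.main_values hb hc nb nc hT (fm_iff.2 hF) hU
  · exact part_fields hb hc nb nc hT hF K hK hfd
  · rw [← ma_iff, sel_one]
    exact (Pool.Agent.U120.BR.main_const hb hc nb nc hT).1
  · rw [← ma_iff, sel_one]
    exact (Pool.Agent.U120.BR.main_const hb hc nb nc hT).2
  · rw [sel_one, sel_one'] at h4
    rw [← ma_iff]
    exact (Pool.Agent.U120.BR.main_trivial hb hc nb nc hT h4).1
  · rw [sel_one, sel_one'] at h4
    rw [← ma_iff]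
    exact (Pool.Agent.U120.BR.main_trivial hb hc nb nc hT h4).2
  · exact part_killed hb hc nb nc hT h4 hM K hK hfd
  · obtain ⟨T, h1, h2, h3⟩ := Pool.Agent.U120.BR.sharp hb hc nb nc
    have hs : ∀ U : Finset ℕ, (U : Set ℕ) ⊆ T → sel a b (prodOf U) =
        Pool.Agent.U120.BR.kq Pool.Agent.Y698.SG.nq (Pool.Agent.U120.BR.th a b 1) U * sel a b 1 := by
      intro U hU
      rw [sel_one]
      exact (Pool.Agent.U120.BR.sD1 hb hc fun p hp => (h1 p (hU (Finset.mem_coe.2 hp))).1).1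
    refine ⟨T, fun p hp => ⟨(h1 p hp).1, th_one.1 (h1 p hp).2⟩, fun U hU => ?_, fun m => ?_⟩
    · rw [hs U hU]
      exact Nat.mul_le_mul_right _ (h2 U hU)
    · obtain ⟨U, hU, hc', hk⟩ := h3 m
      exact ⟨U, hU, hc', by rw [hs U hU, hk]⟩
  · have h := Pool.Agent.U120.BR.pu_law hb hc nb nc ∅ (by simp) (fun _ => 0) 1
    refine Pool.Agent.U120.BR.pu_mono (fun p hp => ⟨hp.1, th_one.1 hp.2.1⟩) h
  · have h' : Pool.Agent.U120.MF.PU {p | p ∈ S ∧ Pool.Agent.U120.BR.th a b 1 p = 1} :=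
      Pool.Agent.U120.BR.pu_mono (fun p hp => ⟨hp.1, th_one.2 hp.2⟩) h
    obtain ⟨T, g1, g2, g3⟩ := Pool.Agent.U120.BR.dense_ma hb hc nb nc hS h'
    exact ⟨T, g1, g2, ma_iff.1 g3⟩

end Pool.Agent.Results.MP_157626_nt.TwistFamilies
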